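import Pool.Agent.Y560.TF.Stm

/-!
# Project TF: variations of a module in place (FILL, FILI)
-/

set_option autoImplicit false

namespace Pool.Agent.Y839.TF

open Set MeasureTheory
open Pool.Agent.H899R2.VP (St Adj PIso BF IsoOn idOn inv comp zipSet)
open Pool.Agent.H533R2.VO (RS lift put OS Ic RIso Dich VC BlkV S_FINAL)
open Pool.Agent.H566P (ar R2 v2 a0 a1 lt ac co mk S_ACC S_MSG)
open Pool.Agent.Y560.TG (acc msg lt_mk ac_mk co_mk R2_ext piso_iff riso_iff riso_isoOn meas_lt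
  meas_ac meas_co meas_into cont_into piso_lt piso_ac piso_co piso_eq ex lt_ex ac_ex co_ex_even
  co_ex_odd piso_ex orb orb_ex Nm Off Sm Thin Few bf_trans0 bf_symm0 iso_trans0 iso_symm0
  iso_refl0 S_EXT S_GL S_MAT S_BP mat pick Se)
open Pool.Agent.Y560.TF

/-- the structure on the class `c` -/
noncomputable def Mc (P : ℕ → ℕ → Prop) (V W : R2) : Bool → R2
  | true => ex P W
  | false => ex (fun k v => v = k) V

open Classical in
/-- the class of `x` -/
noncomputable def pi (O : Set ℕ) (x : ℕ) : Bool := decide (x ∈ O)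

lemma pi_true {O : Set ℕ} {x : ℕ} : pi O x = true ↔ x ∈ O := by
  simp [pi]

lemma pi_false {O : Set ℕ} {x : ℕ} : pi O x = false ↔ x ∉ O := by
  simp [pi]

lemma pi_ne {O : Set ℕ} {x y : ℕ} (h : pi O x ≠ pi O y) : ¬ (x ∈ O ∧ y ∈ O) := by
  rintro ⟨h1, h2⟩
  exact h (by rw [pi_true.2 h1, pi_true.2 h2])

lemma glue (hGL : S_GL) {R V V' : R2} {O : Set ℕ} {P : ℕ → ℕ → Prop} (hM : Mod O P R)
    (h1 : Off O R V) (h2 : Off O R V') :
    ∀ o : Ordinal.{0}, BF (lift (ex P V)) (lift (ex P V')) O O o ∅ →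
      BF (lift (ex P V)) (lift (ex P V')) univ univ o (idOn Oᶜ) := by
  have hac : ∀ W : R2, Off O R W → ∀ n x y, ac (ex P W) n x y → pi O x = pi O y := by
    intro W hW n x y h
    rw [ac_ex] at h
    by_cases hxy : x ∈ O ∧ y ∈ O
    · rw [pi_true.2 hxy.1, pi_true.2 hxy.2]
    · have h3 := hM.1 n x y ((hW.2.1 n x y hxy).1 h)
      by_cases hx : x ∈ O
      · exact absurd ⟨hx, h3.1 hx⟩ hxy
      · rw [pi_false.2 hx, pi_false.2 (fun hy => hx (h3.2 hy))]
  obtain ⟨g1, -⟩ := hGL Bool (pi O) (ex P V) (ex P V') (Mc P V V) (Mc P V V')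
    (fun x y h => by
      rw [lt_ex, lt_ex]
      exact (h2.1 x y (pi_ne h)).trans (h1.1 x y (pi_ne h)).symm)
    (hac V h1) (hac V' h2)
    (by
      intro c q hq hp
      cases c with
      | true =>
        have hp' : PIso (lift (ex P V)) (lift (ex P V')) q := hp
        refine ⟨hp', fun u hu w hw => ?_⟩
        rw [piso_ex] at hp'
        have hu1 : u.1 ∈ O := pi_true.1 (hq u hu).1
        have hu2 : u.2 ∈ O := pi_true.1 (hq u hu).2
        have hwO : w ∉ O := fun h => hw (pi_true.2 h)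
        have h3 := (hM.2 u.1 hu1 u.2 hu2) (fun k => hp'.2 k u hu) w hwO
        have e1 : ∀ z : ℕ, (lt V z w ↔ lt R z w) ∧ (lt V w z ↔ lt R w z) := fun z =>
          ⟨h1.1 z w (fun h => hwO h.2), h1.1 w z (fun h => hwO h.1)⟩
        rw [lt_ex, lt_ex, lt_ex, lt_ex]
        exact ⟨(e1 u.1).1.trans (h3.1.trans (e1 u.2).1.symm),
          (e1 u.1).2.trans (h3.2.trans (e1 u.2).2.symm)⟩
      | false =>
        have hp' : PIso (lift (ex (fun k v => v = k) V)) (lift (ex (fun k v => v = k) V)) q := hp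
        rw [piso_ex] at hp'
        have heq : ∀ u ∈ q, u.1 = u.2 := fun u hu => ((hp'.2 u.1 u hu).1 rfl).symm
        have hout : ∀ u ∈ q, u.1 ∉ O := fun u hu => pi_false.1 (hq u hu).1
        refine ⟨?_, fun u hu w _ => ?_⟩
        · rw [piso_ex]
          refine ⟨?_, fun k u hu => by rw [heq u hu]⟩
          rw [piso_iff]
          refine ⟨fun u hu v hv => ?_, fun u hu v hv => ?_, fun n u hu v hv => ?_,
            fun n u hu => ?_⟩
          · rw [heq u hu, heq v hv]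
          · have hn : ¬ (u.1 ∈ O ∧ v.1 ∈ O) := fun h => hout u hu h.1
            rw [← heq u hu, ← heq v hv, h1.1 _ _ hn, h2.1 _ _ hn]
          · have hn : ¬ (u.1 ∈ O ∧ v.1 ∈ O) := fun h => hout u hu h.1
            rw [← heq u hu, ← heq v hv, h1.2.1 n _ _ hn, h2.2.1 n _ _ hn]
          · rw [← heq u hu, h1.2.2 n _ (hout u hu), h2.2.2 n _ (hout u hu)]
        · rw [heq u hu]
          exact ⟨Iff.rfl, Iff.rfl⟩)
  have hcl1 : {x | pi O x = true} = O := by
    ext x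
    exact pi_true
  have hcl2 : {x | pi O x = false} = Oᶜ := by
    ext x
    exact pi_false
  have hid : ∀ u ∈ idOn Oᶜ, pi O u.1 = pi O u.2 := by
    rintro ⟨x, y⟩ ⟨h, _⟩
    simp only at h
    rw [h]
  have hs1 : {u : ℕ × ℕ | u ∈ idOn Oᶜ ∧ pi O u.1 = true} = ∅ := by
    ext u
    simp only [mem_ofPred_eq, mem_empty_iff_false, iff_false, not_and]
    rintro ⟨_, h⟩ h'
    exact h (pi_true.1 h')
  have hs2 : {u : ℕ × ℕ | u ∈ idOn Oᶜ ∧ pi O u.1 = false} = idOn Oᶜ := by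
    ext u
    simp only [mem_ofPred_eq, and_iff_left_iff_imp]
    rintro ⟨_, h⟩
    exact pi_false.2 h
  refine fun o h => g1 o (idOn Oᶜ) hid ?_
  intro c
  cases c with
  | true =>
    rw [hcl1, hs1]
    exact h
  | false =>
    rw [hcl2, hs2]
    exact BF.refl _ _ _

open Classical in
/-- the variation -/
noncomputable def Var (O : Set ℕ) (φ : ℕ → ℕ) (R T : R2) : R2 :=
  mk (fun a b => if a ∈ O ∧ b ∈ O then lt T (φ a) (φ b) else lt R a b)
    (fun n a b => if a ∈ O ∧ b ∈ O then ac T n (φ a) (φ b) else ac R n a b)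
    (fun n a => if a ∈ O then co T (2 * n) (φ a) else co R n a)

lemma off_refl (O : Set ℕ) (R : R2) : Off O R R :=
  ⟨fun _ _ _ => Iff.rfl, fun _ _ _ _ => Iff.rfl, fun _ _ _ => Iff.rfl⟩

lemma off_var (O : Set ℕ) (φ : ℕ → ℕ) (R T : R2) : Off O R (Var O φ R T) := by
  refine ⟨fun x y h => ?_, fun n x y h => ?_, fun n x h => ?_⟩
  · unfold Var
    rw [lt_mk, if_neg h]
  · unfold Var
    rw [ac_mk, if_neg h]
  · unfold Var
    rw [co_mk, if_neg h]

/-- reducts -/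
lemma bf_reduct (hE : S_EXT) {P P' : ℕ → ℕ → Prop} {R V : R2} {α : Ordinal.{0}}
    {p : Set (ℕ × ℕ)} (h : BF (lift (ex P R)) (lift (ex P' V)) univ univ α p) :
    BF (lift R) (lift V) univ univ α p := by
  have h1 := hE (ex P R) (ex P' V) R V univ univ univ univ p ∅ 0 (subset_univ _) (subset_univ _)
    (fun q _ hb => by
      refine ⟨?_, fun u _ => by simp⟩
      have h2 := hb.piso
      rw [piso_ex] at h2
      exact h2.1.mono (by rintro u (⟨h3, _⟩ | h3)
                          · exact h3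
                          · exact absurd h3 (notMem_empty _))) α (by rwa [zero_add])
  exact h1.subset (fun u hu => Or.inl ⟨hu, mem_univ _⟩)

theorem t_FILL (hGL : S_GL) (hM : S_MAT) (hE : S_EXT) : S_FILL := by
  intro R T O Y P α hMod hα hbf
  set mt : ℕ → ℕ → Prop := fun v w => ∀ k, P k v ↔ co T (2 * k + 1) w with hmt
  obtain ⟨m1, m2, m3⟩ := hM (ex P R) T O Y mt
    (fun v w v' w' a b c k => (a k).trans ((b k).symm.trans (c k)))
    (hbf.mono hα)
    (by
      intro q x y hxy hb k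
      have h1 := piso_co hb.piso (n := 2 * k + 1) hxy
      rwa [co_ex_odd] at h1)
  set φ := mat O Y mt with hφ
  have hiso : IsoOn (lift T) (lift (ex P (Var O φ R T))) Y O ∅ := by
    refine ⟨{u | u.2 ∈ O ∧ u.1 = φ u.2}, empty_subset _, ?_, ?_, ?_, ?_⟩
    · rintro ⟨u, v⟩ ⟨h1, h2⟩
      simp only at h1 h2
      exact ⟨by rw [h2]; exact (m1 v h1).1, h1⟩
    · rw [piso_iff]
      refine ⟨?_, ?_, ?_, ?_⟩
      · rintro ⟨u, u'⟩ ⟨h1, h2⟩ ⟨v, v'⟩ ⟨h3, h4⟩
        simp only at h1 h2 h3 h4 ⊢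
        subst h2 h4
        exact ⟨fun h => m2 h1 h3 h, fun h => by rw [h]⟩
      · rintro ⟨u, u'⟩ ⟨h1, h2⟩ ⟨v, v'⟩ ⟨h3, h4⟩
        simp only at h1 h2 h3 h4 ⊢
        subst h2 h4
        rw [lt_ex]
        unfold Var
        rw [lt_mk, if_pos ⟨h1, h3⟩]
      · rintro n ⟨u, u'⟩ ⟨h1, h2⟩ ⟨v, v'⟩ ⟨h3, h4⟩
        simp only at h1 h2 h3 h4 ⊢
        subst h2 h4
        rw [ac_ex]
        unfold Var
        rw [ac_mk, if_pos ⟨h1, h3⟩]
      · rintro n ⟨u, u'⟩ ⟨h1, h2⟩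
        simp only at h1 h2 ⊢
        subst h2
        obtain ⟨k, rfl | rfl⟩ : ∃ k, n = 2 * k ∨ n = 2 * k + 1 := ⟨n / 2, by omega⟩
        · rw [co_ex_even]
          unfold Var
          rw [co_mk, if_pos h1]
        · rw [co_ex_odd]
          exact ((m1 u' h1).2 k).symm
    · intro y hy
      obtain ⟨x, hx, hxy⟩ := m3 y hy
      exact ⟨x, hx, hxy.symm⟩
    · intro x hx
      exact ⟨φ x, hx, rfl⟩
  have hb2 : BF (lift (ex P R)) (lift (ex P (Var O φ R T))) O O α ∅ :=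
    bf_trans0 hbf (hiso.bf α)
  have hb3 := glue hGL hMod (off_refl O R) (off_var O φ R T) α hb2
  exact ⟨Var O φ R T, off_var O φ R T, hb3, hiso, hb2, bf_reduct hE hb3⟩

/-- Elements of a variation correspond to elements of the structure. -/
lemma key (hT : S_TRQ) {R V : R2} {O : Set ℕ} {y : ℕ} (hy : y ∉ O)
    (hb : BF (lift R) (lift V) univ univ Ordinal.omega0 (idOn Oᶜ)) {x : ℕ} (hx : x ∈ O) :
    ∃ x0 ∈ O, (∀ m, Q R y m x0 ↔ Q V y m x) ∧
      ∀ w ∉ O, (lt R x0 w ↔ lt V x w) ∧ (lt R w x0 ↔ lt V w x) := by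
  obtain ⟨x0, -, h1⟩ := hb.back (o' := 3) (Ordinal.natCast_lt_omega0 3) (mem_univ x)
  have hp := h1.piso
  have hm : (x0, x) ∈ insert (x0, x) (idOn Oᶜ) := mem_insert _ _
  have hi : ∀ w ∉ O, (w, w) ∈ insert (x0, x) (idOn Oᶜ) := fun w hw =>
    mem_insert_of_mem _ ⟨rfl, hw⟩
  refine ⟨x0, ?_, fun m => hT.1 R V _ y y x0 x m h1 (hi y hy) hm, fun w hw => ⟨?_, ?_⟩⟩
  · by_contra h
    have h2 : x0 = x := (piso_eq hp (hi x0 h) hm).1 rfl
    exact h (h2 ▸ hx)
  · exact piso_lt hp hm (hi w hw)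
  · exact piso_lt hp (hi w hw) hm

theorem t_FILI (hT : S_TRQ) (hG : S_GEO) : S_FILI := by
  intro Γ _ g hg R V V' y z q hR hyz h1 h2 hb hb' h
  obtain ⟨τ, hqτ, hτ, hp, hτ1, hτ2⟩ := h
  set O := Ob R y z with hO
  have G := hG Γ g hg R hR
  have hy : y ∉ O := fun h => hyz ((G.out y z).1.1 h)
  unfold lb at hp
  rw [piso_ex] at hp
  obtain ⟨hp, hQ⟩ := hp
  rw [piso_iff] at hp
  obtain ⟨p1, p2, p3, p4⟩ := hp
  have hin : ∀ u ∈ τ, u.1 ∈ O ∧ u.2 ∈ O := fun u hu => hτ hu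
  -- comparison with the elements outside
  have hlt : ∀ u ∈ τ, ∀ w ∉ O, (lt V u.1 w ↔ lt V' u.2 w) ∧ (lt V w u.1 ↔ lt V' w u.2) := by
    intro u hu w hw
    obtain ⟨a, ha, ha1, ha2⟩ := key hT hy hb (hin u hu).1
    obtain ⟨b, hbO, hb1, hb2⟩ := key hT hy hb' (hin u hu).2
    have h3 := (G.mod y z).2 a ha b hbO (fun k =>
      (ha1 k).trans ((hQ k u hu).trans (hb1 k).symm)) w hw
    exact ⟨(ha2 w hw).1.symm.trans (h3.1.trans (hb2 w hw).1),
      (ha2 w hw).2.symm.trans (h3.2.trans (hb2 w hw).2)⟩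
  have hac : ∀ W : R2, Off O R W → ∀ n x w, x ∈ O → w ∉ O → ¬ ac W n x w ∧ ¬ ac W n w x := by
    intro W hW n x w hx hw
    constructor
    · intro h
      have h3 := (hW.2.1 n x w (fun h => hw h.2)).1 h
      exact hw ((G.inv n y z x w h3).1 hx)
    · intro h
      have h3 := (hW.2.1 n w x (fun h => hw h.1)).1 h
      exact hw ((G.inv n y z w x h3).2 hx)
  refine ⟨τ ∪ idOn Oᶜ, union_subset_union_left _ hqτ, fun _ _ => ⟨mem_univ _, mem_univ _⟩,
    ?_, fun x _ => ?_, fun x _ => ?_⟩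
  · rw [piso_iff]
    refine ⟨?_, ?_, ?_, ?_⟩
    · rintro u (hu | hu) v (hv | hv)
      · exact p1 u hu v hv
      · have e1 : u.1 ≠ v.1 := fun e => hv.2 (e ▸ (hin u hu).1)
        have e2 : u.2 ≠ v.2 := fun e => by
          have := (hin u hu).2
          rw [e, ← hv.1] at this
          exact hv.2 this
        exact ⟨fun e => absurd e e1, fun e => absurd e e2⟩
      · have e1 : u.1 ≠ v.1 := fun e => hu.2 (e ▸ (hin v hv).1)
        have e2 : u.2 ≠ v.2 := fun e => by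
          have := (hin v hv).2
          rw [← e, ← hu.1] at this
          exact hu.2 this
        exact ⟨fun e => absurd e e1, fun e => absurd e e2⟩
      · rw [hu.1, hv.1]
    · rintro u (hu | hu) v (hv | hv)
      · exact p2 u hu v hv
      · rw [← hv.1]
        exact (hlt u hu v.1 hv.2).1
      · rw [← hu.1]
        exact (hlt v hv u.1 hu.2).2
      · have hn : ¬ (u.1 ∈ O ∧ v.1 ∈ O) := fun h => hu.2 h.1
        rw [← hu.1, ← hv.1, h1.1 _ _ hn, h2.1 _ _ hn]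
    · rintro n u (hu | hu) v (hv | hv)
      · exact p3 n u hu v hv
      · rw [← hv.1]
        exact ⟨fun h => absurd h (hac V h1 n _ _ (hin u hu).1 hv.2).1,
          fun h => absurd h (hac V' h2 n _ _ (hin u hu).2 hv.2).1⟩
      · rw [← hu.1]
        exact ⟨fun h => absurd h (hac V h1 n _ _ (hin v hv).1 hu.2).2,
          fun h => absurd h (hac V' h2 n _ _ (hin v hv).2 hu.2).2⟩
      · have hn : ¬ (u.1 ∈ O ∧ v.1 ∈ O) := fun h => hu.2 h.1
        rw [← hu.1, ← hv.1, h1.2.1 n _ _ hn, h2.2.1 n _ _ hn]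
    · rintro n u (hu | hu)
      · exact p4 n u hu
      · rw [← hu.1, h1.2.2 n _ hu.2, h2.2.2 n _ hu.2]
  · by_cases hx : x ∈ O
    · obtain ⟨x', h3⟩ := hτ1 x hx
      exact ⟨x', Or.inl h3⟩
    · exact ⟨x, Or.inr ⟨rfl, hx⟩⟩
  · by_cases hx : x ∈ O
    · obtain ⟨x', h3⟩ := hτ2 x hx
      exact ⟨x', Or.inl h3⟩
    · exact ⟨x, Or.inr ⟨rfl, hx⟩⟩

end Pool.Agent.Y839.TF
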